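import Pool.Agent.H93.HQ.Targets

namespace Pool.Agent.H6.HQ
open MeasureTheory Set Filter Topology Pool.Agent.H80.HS Pool.Agent.H93.HQ
open scoped ContDiff ENNReal

theorem pf_ONE : U_ONE := by
  intro F _ _ f g a b T hT hab hf hg hd h0 hTa
  have hfn : ContinuousOn (fun s => ‖f s‖) (Icc 0 T) := hf.norm
  have hS1c : IsCompact (Icc 0 T ∩ (fun s => ‖f s‖) ⁻¹' Ici b) :=
    isCompact_Icc.of_isClosed_subset
      (hfn.preimage_isClosed_of_isClosed isClosed_Icc isClosed_Ici) inter_subset_left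
  obtain ⟨s1, ⟨hs1I, hs1b⟩, hs1max⟩ := hS1c.exists_isGreatest ⟨0, ⟨le_rfl, hT.le⟩, h0⟩
  have hs1b' : b ≤ ‖f s1‖ := hs1b
  have hs1T : s1 < T := by
    rcases hs1I.2.lt_or_eq with h | h
    · exact h
    · rw [h] at hs1b'
      exact absurd (hs1b'.trans hTa) (not_le.mpr hab)
  have hltb : ∀ s, s1 < s → s ≤ T → ‖f s‖ < b := by
    intro s hs hsT
    by_contra hcon
    have := hs1max ⟨⟨hs1I.1.trans hs.le, hsT⟩, not_lt.mp hcon⟩
    exact absurd this (not_le.mpr hs)
  have hS2c : IsCompact (Icc s1 T ∩ (fun s => ‖f s‖) ⁻¹' Iic a) :=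
    isCompact_Icc.of_isClosed_subset
      ((hfn.mono (Icc_subset_Icc_left hs1I.1)).preimage_isClosed_of_isClosed
        isClosed_Icc isClosed_Iic) inter_subset_left
  obtain ⟨s2, ⟨hs2I, hs2a⟩, hs2min⟩ := hS2c.exists_isLeast ⟨T, ⟨hs1T.le, le_rfl⟩, hTa⟩
  have hs2a' : ‖f s2‖ ≤ a := hs2a
  have h12 : s1 < s2 := by
    rcases hs2I.1.lt_or_eq with h | h
    · exact h
    · rw [← h] at hs2a'
      exact absurd (hs1b'.trans hs2a') (not_le.mpr hab)
  have hgta : ∀ s, s1 ≤ s → s < s2 → a < ‖f s‖ := by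
    intro s hs hs2
    by_contra hcon
    have := hs2min ⟨⟨hs, hs2.le.trans hs2I.2⟩, not_lt.mp hcon⟩
    exact absurd this (not_le.mpr hs2)
  set R : ℝ≥0∞ := ∫⁻ s in Ioc 0 T,
    {s | a < ‖f s‖ ∧ ‖f s‖ < b}.indicator (fun s => ENNReal.ofReal ‖g s‖) s with hR
  have key : ∀ s' ∈ Ioo s1 s2, ENNReal.ofReal ‖f s2 - f s'‖ ≤ R := by
    intro s' hs'
    have hs0 : 0 < s' := lt_of_le_of_lt hs1I.1 hs'.1
    have hsub : Icc s' s2 ⊆ Ioc 0 T := fun x hx => ⟨hs0.trans_le hx.1, hx.2.trans hs2I.2⟩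
    have hgc : ContinuousOn g (Icc s' s2) := hg.mono hsub
    have hle : s' ≤ s2 := hs'.2.le
    set G : ℝ → ℝ := IccExtend hle (fun x : Icc s' s2 => ‖g x‖) with hG
    have hGc : Continuous G := by
      refine Continuous.Icc_extend' ?_
      exact (continuousOn_iff_continuous_domRestrict.mp hgc).norm
    have hGe : ∀ x ∈ Icc s' s2, G x = ‖g x‖ := by
      intro x hx
      rw [hG, IccExtend_of_mem hle _ hx]
    have hB := image_norm_le_of_norm_deriv_right_le_deriv_boundary'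
      (f := fun x => f x - f s') (f' := g) (a := s') (b := s2)
      (B := fun t => ∫ x in s'..t, G x) (B' := G)
      ((hf.mono (fun x hx => ⟨(hsub hx).1.le, (hsub hx).2⟩)).sub continuousOn_const)
      (fun x hx => ((hd x (hsub ⟨hx.1, hx.2.le⟩)).sub_const _).hasDerivWithinAt)
      (by simp)
      (by
        have : Continuous (fun t => ∫ x in s'..t, G x) := by
          rw [continuous_iff_continuousAt]
          exact fun t => (hGc.integral_hasStrictDerivAt s' t).hasDerivAt.continuousAt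
        exact this.continuousOn)
      (fun x _ => (hGc.integral_hasStrictDerivAt s' x).hasDerivAt.hasDerivWithinAt)
      (fun x hx => by rw [hGe x ⟨hx.1, hx.2.le⟩])
      (right_mem_Icc.mpr hle)
    have hnn : 0 ≤ᵐ[volume.restrict (Ioc s' s2)] G := by
      refine ae_restrict_of_forall_mem measurableSet_Ioc fun x hx => ?_
      rw [hGe x ⟨hx.1.le, hx.2⟩]
      exact norm_nonneg _
    calc ENNReal.ofReal ‖f s2 - f s'‖ ≤ ENNReal.ofReal (∫ x in s'..s2, G x) :=
          ENNReal.ofReal_le_ofReal hB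
      _ = ∫⁻ x in Ioc s' s2, ENNReal.ofReal (G x) := by
          rw [intervalIntegral.integral_of_le hle]
          exact ofReal_integral_eq_lintegral_ofReal
            ((hGc.integrableOn_Icc (a := s') (b := s2)).mono_set Ioc_subset_Icc_self) hnn
      _ = ∫⁻ x in Ioo s' s2, ENNReal.ofReal (G x) := by
          rw [restrict_Ioo_eq_restrict_Ioc]
      _ ≤ ∫⁻ x in Ioo s' s2,
            {s | a < ‖f s‖ ∧ ‖f s‖ < b}.indicator (fun s => ENNReal.ofReal ‖g s‖) x := by
          refine setLIntegral_mono' measurableSet_Ioo fun x hx => ?_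
          have hmem : x ∈ {s | a < ‖f s‖ ∧ ‖f s‖ < b} :=
            ⟨hgta x (hs'.1.trans hx.1).le hx.2,
              hltb x (hs'.1.trans hx.1) (hx.2.le.trans hs2I.2)⟩
          rw [indicator_of_mem hmem, hGe x ⟨hx.1.le, hx.2.le⟩]
      _ ≤ R := by
          rw [hR]
          exact lintegral_mono_set fun x hx => ⟨hs0.trans hx.1, hx.2.le.trans hs2I.2⟩
  have hcont : Tendsto (fun s' => ENNReal.ofReal ‖f s2 - f s'‖) (𝓝[>] s1)
      (𝓝 (ENNReal.ofReal ‖f s2 - f s1‖)) := by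
    have h1 : Tendsto f (𝓝[>] s1) (𝓝 (f s1)) := by
      have h2 := hf s1 hs1I
      refine h2.mono_left ?_
      have h3 : 𝓝[>] s1 = 𝓝[Ioo s1 T] s1 := (nhdsWithin_Ioo_eq_nhdsGT hs1T).symm
      rw [h3]
      exact nhdsWithin_mono _ fun x hx => ⟨hs1I.1.trans hx.1.le, hx.2.le⟩
    exact ENNReal.tendsto_ofReal ((tendsto_const_nhds.sub h1).norm)
  have hlim : ENNReal.ofReal ‖f s2 - f s1‖ ≤ R := by
    refine le_of_tendsto hcont ?_
    filter_upwards [Ioo_mem_nhdsGT h12] with s' hs'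
    exact key s' hs'
  refine le_trans (ENNReal.ofReal_le_ofReal ?_) hlim
  have h4 : ‖f s1‖ - ‖f s2‖ ≤ ‖f s2 - f s1‖ := by
    rw [norm_sub_rev]
    exact norm_sub_norm_le _ _
  linarith

end Pool.Agent.H6.HQ
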